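import Pool.Agent.LRY.Stmts
import Pool.Agent.Helper98_LRN.FFX

/-!
# LRY, row CFQ: the number of fields
-/

set_option autoImplicit false

open Polynomial NumberField
open Pool.Agent.LRG Pool.Agent.LRN Pool.Agent.LRY Pool.Agent.LRG.E

namespace Pool.Agent.LRY.H74

theorem ex_inj {r₁ r₂ : ℕ} : Function.Injective (ex : Fa r₁ r₂ → ℕ) := by
  intro k k' h
  rcases k with i | j <;> rcases k' with i' | j' <;> simp only [ex, Sum.elim_inl, Sum.elim_inr] at h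
  · exact congrArg _ (Fin.ext h)
  · have := i.2; omega
  · have := i'.2; omega
  · exact congrArg _ (Fin.ext (by omega))

theorem ex_surj {r₁ r₂ : ℕ} (m : ℕ) (h : m < r₁ + r₂) : ∃ k : Fa r₁ r₂, ex k = m := by
  by_cases hm : m < r₁
  · exact ⟨Sum.inl ⟨m, hm⟩, rfl⟩
  · refine ⟨Sum.inr ⟨m - r₁, by omega⟩, ?_⟩
    simp only [ex, Sum.elim_inr]
    omega

theorem mu_le {r₁ r₂ : ℕ} (k : Fa r₁ r₂) : mu k ≤ 2 := by
  rcases k with i | j <;> simp [mu]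

/-- The fibre of a fixed field. -/
theorem fibre (hunq : UnqConcl) (hszq : SzqStmt) (hthq : ThqStmt) (hpdq : PdqStmt)
    (hfcq : FcqStmt) (r₁ r₂ N : ℕ) (hr : 3 ≤ r₁ + r₂) (hN : 2 ≤ N) (C : ℝ)
    (hC : ∀ (E : Type) [Field E] [NumberField E],
      Module.finrank ℚ E ≤ r₁ + 2 * r₂ → ∀ Y : ℝ, 1 ≤ Y →
      {b : (𝓞 E)ˣ | ∀ σ : E →+* ℂ, ‖σ ((b : 𝓞 E) : E)‖ ≤ Y}.Finite ∧
      ({b : (𝓞 E)ˣ | ∀ σ : E →+* ℂ, ‖σ ((b : 𝓞 E) : E)‖ ≤ Y}.ncard : ℝ)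
        ≤ C * (1 + Real.log Y) ^ (r₁ + 2 * r₂))
    (K : Type) [Field K] [NumberField K]
    (S : Finset ((Fa r₁ r₂ → ℤ) × (Fin r₂ → ℤ)))
    (hS : ∀ s ∈ S, Nrm r₁ r₂ N s.1 ∧ ∃ x θ e, Fdq r₁ r₂ N s.1 s.2 x K θ e) :
    (S.card : ℝ) ≤ (C * (1 + Real.log ((bq r₁ r₂ * N) ^ 2)) ^ (r₁ + 2 * r₂)) ^ 2 := by
  classical
  set Y : ℝ := (bq r₁ r₂ * N) ^ 2 with hY
  have hbN : 1 ≤ bq r₁ r₂ * N := by
    have h1 : (6 : ℝ) ≤ bq r₁ r₂ := by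
      unfold bq
      have : (0 : ℝ) ≤ 3 * ((r₁ : ℝ) + r₂) := by positivity
      linarith
    have h2 : (2 : ℝ) ≤ N := by exact_mod_cast hN
    nlinarith
  have hY1 : 1 ≤ Y := one_le_pow₀ hbN
  obtain ⟨k₁, hk₁⟩ := ex_surj (r₁ := r₁) (r₂ := r₂) 0 (by omega)
  obtain ⟨k₂, hk₂⟩ := ex_surj (r₁ := r₁) (r₂ := r₂) 1 (by omega)
  let P : (Fa r₁ r₂ → ℤ) × (Fin r₂ → ℤ) → (Fa r₁ r₂ → (𝓞 K)ˣ) → Prop := fun s u =>
    ∃ x θ e, Fdq r₁ r₂ N s.1 s.2 x K θ e ∧ (∀ k, ((u k : 𝓞 K) : K) = aeval θ (gq s.1 s.2 k)) ∧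
      ∀ (o : Ro r₁ r₂) (k : Fa r₁ r₂), ‖e o ((u k : 𝓞 K) : K)‖ = dsq s.1 s.2 (x o) k
  have hP : ∀ s ∈ S, ∃ u, P s u := by
    intro s hs
    obtain ⟨_, x, θ, e, hf⟩ := hS s hs
    obtain ⟨u, hu1, _, hu3⟩ := hunq r₁ r₂ N s.1 s.2 x K θ e hf
    exact ⟨u, x, θ, e, hf, hu1, hu3⟩
  let U : (Fa r₁ r₂ → ℤ) × (Fin r₂ → ℤ) → (Fa r₁ r₂ → (𝓞 K)ˣ) := fun s =>
    if h : ∃ u, P s u then h.choose else 1
  have hU : ∀ s ∈ S, P s (U s) := by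
    intro s hs
    have h := hP s hs
    have h1 : U s = h.choose := dif_pos h
    rw [h1]
    exact h.choose_spec
  rcases S.eq_empty_or_nonempty with hemp | ⟨s₀, hs₀⟩
  · rw [hemp, Finset.card_empty, Nat.cast_zero]
    positivity
  have hdeg : Module.finrank ℚ K ≤ r₁ + 2 * r₂ := by
    obtain ⟨_, x, θ, e, hf⟩ := hS s₀ hs₀
    exact hf.deg.le
  obtain ⟨hfin, hcard⟩ := hC K hdeg Y hY1
  set B : Set (𝓞 K)ˣ := {b : (𝓞 K)ˣ | ∀ σ : K →+* ℂ, ‖σ ((b : 𝓞 K) : K)‖ ≤ Y} with hB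
  have hmem : ∀ s ∈ S, ∀ k, U s k ∈ B := by
    intro s hs k σ
    obtain ⟨x, θ, e, hf, _, hu3⟩ := hU s hs
    obtain ⟨o, rfl⟩ := e.surjective σ
    rw [hu3]
    refine ((hszq r₁ r₂ N s.1 s.2 x hf.rts hN).2.2 o k).trans ?_
    exact pow_le_pow_right₀ hbN (mu_le k)
  have hcount : (S : Set ((Fa r₁ r₂ → ℤ) × (Fin r₂ → ℤ))).ncard ≤ (B ×ˢ B).ncard := by
    refine Set.ncard_le_ncard_of_injOn (fun s => (U s k₁, U s k₂)) ?_ ?_ (hfin.prod hfin)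
    · intro s hs
      exact ⟨hmem s hs k₁, hmem s hs k₂⟩
    · intro s hs s' hs' hss
      simp only [Prod.mk.injEq] at hss
      obtain ⟨x, θ, e, hf, hu1, _⟩ := hU s hs
      obtain ⟨x', θ', e', hf', hu1', _⟩ := hU s' hs'
      have hk : ∀ k, ex k ≤ 1 → aeval θ (gq s.1 s.2 k) = aeval θ' (gq s'.1 s'.2 k) := by
        intro k hk
        rw [← hu1, ← hu1']
        have h1 : k = k₁ ∨ k = k₂ := by
          rcases Nat.lt_or_ge (ex k) 1 with h | h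
          · left; exact ex_inj (by omega)
          · right; exact ex_inj (by omega)
        rcases h1 with rfl | rfl
        · rw [hss.1]
        · rw [hss.2]
      have hθ : θ = θ' := hthq r₁ r₂ N s.1 s'.1 s.2 s'.2 x x' K θ θ' e e' (by omega) hr hf hf'
        (hS s hs).1 (hS s' hs').1 hk
      subst hθ
      obtain ⟨h1, h2⟩ := hpdq hfcq r₁ r₂ N s.1 s'.1 s.2 s'.2 x x' K θ e e' (by omega) (by omega) hf hf'
      exact Prod.ext h1 h2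
  rw [Set.ncard_coe_finset, Set.ncard_prod] at hcount
  calc (S.card : ℝ) ≤ ((B.ncard * B.ncard : ℕ) : ℝ) := by exact_mod_cast hcount
    _ = (B.ncard : ℝ) ^ 2 := by push_cast; ring
    _ ≤ _ := pow_le_pow_left₀ (by positivity) hcard 2

theorem cfq (hffq : FfqConcl) (hsfq : SfqConcl) (hunq : UnqConcl) (hszq : SzqStmt)
    (hthq : ThqStmt) (hpdq : PdqStmt) (hfcq : FcqStmt) (hcpq : CpqStmt) (hcub : CubConcl) :
    CfqConcl := by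
  classical
  intro r₁ r₂ hr
  obtain ⟨C, _, hC⟩ := hcub (r₁ + 2 * r₂)
  obtain ⟨N₀, hN₀⟩ := hsfq r₁ r₂ hr
  refine ⟨C, max N₀ 2, fun N hN => ?_⟩
  have hN1 : N₀ ≤ N := (le_max_left _ _).trans hN
  have hN2 : 2 ≤ N := (le_max_right _ _).trans hN
  obtain ⟨S, hScard, hS⟩ := hcpq r₁ r₂ N hr (by omega)
  set M : ℝ := (C * (1 + Real.log ((bq r₁ r₂ * N) ^ 2)) ^ (r₁ + 2 * r₂)) ^ 2 with hM
  have hfin : (SizeFlds r₁ r₂ ((bq r₁ r₂ * N) ^ dl r₂)).Finite := Pool.Agent.LRN.H98.ffx _ _ _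
  have hex : ∀ s ∈ S, ∃ (K : IntermediateField ℚ ℂ) (_ : NumberField K) (x : Ro r₁ r₂ → ℂ) (θ : K)
    (e : Ro r₁ r₂ ≃ (K →+* ℂ)), Fdq r₁ r₂ N s.1 s.2 x K θ e := fun s hs =>
    hffq r₁ r₂ N s.1 s.2 (hS s hs).1 hN2 (by omega)
  let F : (Fa r₁ r₂ → ℤ) × (Fin r₂ → ℤ) → IntermediateField ℚ ℂ := fun s =>
    if h : ∃ (K : IntermediateField ℚ ℂ) (_ : NumberField K) (x : Ro r₁ r₂ → ℂ) (θ : K)
      (e : Ro r₁ r₂ ≃ (K →+* ℂ)), Fdq r₁ r₂ N s.1 s.2 x K θ e then h.choose else ⊥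
  have hF : ∀ s ∈ S, ∃ (_ : NumberField (F s)) (x : Ro r₁ r₂ → ℂ) (θ : F s)
      (e : Ro r₁ r₂ ≃ (F s →+* ℂ)), Fdq r₁ r₂ N s.1 s.2 x (F s) θ e := by
    intro s hs
    have h := hex s hs
    have h1 : F s = h.choose := dif_pos h
    rw [h1]
    exact h.choose_spec
  have hmaps : ∀ s ∈ S, F s ∈ hfin.toFinset := by
    intro s hs
    rw [Set.Finite.mem_toFinset]
    obtain ⟨_, x, θ, e, hf⟩ := hF s hs
    exact hN₀ N hN1 s.1 s.2 x (F s) θ e hf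
  have hfib : ∀ K ∈ hfin.toFinset, (S.filter fun s => F s = K).card ≤ ⌊M⌋₊ := by
    intro K _
    rcases (S.filter fun s => F s = K).eq_empty_or_nonempty with hemp | ⟨s₀, hs₀⟩
    · rw [hemp, Finset.card_empty]; exact Nat.zero_le _
    refine Nat.le_floor ?_
    rw [Finset.mem_filter] at hs₀
    obtain ⟨hnf, -⟩ := hF s₀ hs₀.1
    rw [hs₀.2] at hnf
    refine fibre hunq hszq hthq hpdq hfcq r₁ r₂ N hr hN2 C hC K _ ?_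
    intro s hs
    rw [Finset.mem_filter] at hs
    refine ⟨(hS s hs.1).2, ?_⟩
    have h1 := hF s hs.1
    rw [hs.2] at h1
    obtain ⟨_, x, θ, e, hf⟩ := h1
    exact ⟨x, θ, e, hf⟩
  have hle := Finset.card_le_mul_card_image_of_maps_to hmaps ⌊M⌋₊ hfib
  have hcard : hfin.toFinset.card = (SizeFlds r₁ r₂ ((bq r₁ r₂ * N) ^ dl r₂)).ncard :=
    (Set.ncard_eq_toFinset_card _ hfin).symm
  rw [hcard] at hle
  have hM0 : 0 ≤ M := by positivity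
  calc (N : ℝ) ^ kap r₁ r₂ ≤ (S.card : ℝ) := by exact_mod_cast hScard
    _ ≤ ((⌊M⌋₊ * (SizeFlds r₁ r₂ ((bq r₁ r₂ * N) ^ dl r₂)).ncard : ℕ) : ℝ) := by exact_mod_cast hle
    _ = (⌊M⌋₊ : ℝ) * ((SizeFlds r₁ r₂ ((bq r₁ r₂ * N) ^ dl r₂)).ncard : ℝ) := by push_cast; ring
    _ ≤ M * ((SizeFlds r₁ r₂ ((bq r₁ r₂ * N) ^ dl r₂)).ncard : ℝ) :=
        mul_le_mul_of_nonneg_right (Nat.floor_le hM0) (by positivity)
    _ = _ := mul_comm _ _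

theorem cfqStmt : CfqStmt := cfq

end Pool.Agent.LRY.H74
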