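import Pool.Agent.LRY.Stmts
import Pool.Agent.Helper29_LRN.FINB

/-!
# LRY: the number of fields which fail, with a hypothesis for the subfields of index at least 3 only
-/

set_option autoImplicit false

open Polynomial NumberField Filter
open Pool.Agent.Helper85_Leo (LeopoldtAt)
open Pool.Agent.LRG Pool.Agent.LRN Pool.Agent.LRY

namespace Pool.Agent.LRY.H74

open Pool.Agent.LRN.H29 (FX MinFails Fails sizeFlds_sub ureg_mono fx_sub)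

/-- The number fields inside `ℂ` for which Leopoldt's conjecture fails at `p`, while it holds for all
subfields of index at least `3` and unit rank at least `2`. -/
def YFails (p : ℕ) : Set (IntermediateField ℚ ℂ) :=
  {K | ∃ (_ : Fact p.Prime) (_ : NumberField K), ¬ LeopoldtAt K p ∧
    ∀ E : IntermediateField ℚ K, 3 ≤ Module.finrank E K → 2 ≤ Units.rank E → LeopoldtAt E p}

/-- The conclusion of BDY. -/
def BdyConcl : Prop := ∀ (p : ℕ) [Fact p.Prime] (E K : IntermediateField ℚ ℂ),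
  K ∈ BadY p → E ∈ Bad p → E ≤ K → Module.finrank ℚ K ≤ 2 * Module.finrank ℚ E

theorem fx_mem {r₁ r₂ : ℕ} {X : ℝ} {K : IntermediateField ℚ ℂ} (hK : K ∈ FX r₁ r₂ X) :
    K ∈ SizeFlds r₁ r₂ X ∨ ∃ _ : NumberField K,
      ∀ E : IntermediateField ℚ K, E ≠ ⊤ → Units.rank E = 0 := by
  obtain ⟨hN, h1, h2, h3, h | ⟨h4, _⟩⟩ := hK
  · exact Or.inl ⟨hN, h1, h2, h3, h⟩
  · exact Or.inr ⟨hN, h4⟩

/-- (Y2) with the primes up to `P(X)`. -/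
theorem yCount (hU : UppY) (hB : BdyConcl) (r₁ r₂ : ℕ) (P : ℝ → ℕ)
    (hfin : ∀ X, (FX r₁ r₂ X).Finite)
    (hS : ∀ ε : ℝ, 0 < ε → ∃ C : ℝ, ∀ X : ℝ, 1 ≤ X →
      ({K | K ∈ FX r₁ r₂ X ∧ ∃ p ≤ P X, K ∈ MinFails p}.ncard : ℝ) ≤ C * X ^ ε ∧
      ∃ S : Set (IntermediateField ℚ ℂ), S.Finite ∧ (S.ncard : ℝ) ≤ C * X ^ ε ∧
        ∀ K ∈ UnitFlds (r₁ + 2 * r₂) X, ∀ p ≤ P X, K ∈ Fails p → ∃ E ∈ S, E ≤ K ∧ E ∈ Fails p) :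
    ∀ ε : ℝ, 0 < ε → ∃ C : ℝ, ∀ X : ℝ, 1 ≤ X →
      ({K | K ∈ FX r₁ r₂ X ∧ ∃ p ≤ P X, K ∈ YFails p}.ncard : ℝ)
        ≤ C * X ^ (((r₁ : ℝ) + 2 * r₂) / 2 + ε) := by
  classical
  intro ε hε
  obtain ⟨C₁, hC₁⟩ := hS (ε / 2) (by positivity)
  obtain ⟨C₂, hC₂⟩ := hU r₁ r₂ (ε / 2) (by positivity)
  refine ⟨|C₁| + |C₂| * |C₁|, fun X hX => ?_⟩
  obtain ⟨h1, S, hSf, hSc, hSm⟩ := hC₁ X hX
  have hX0 : (0 : ℝ) < X := zero_lt_one.trans_le hX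
  have hn0 : (0 : ℝ) ≤ ((r₁ : ℝ) + 2 * r₂) / 2 := by positivity
  obtain ⟨T, hT⟩ : ∃ T : Set (IntermediateField ℚ ℂ),
      T = {K | K ∈ SizeFlds r₁ r₂ X ∧ ∃ p ≤ P X, K ∈ YFails p} := ⟨_, rfl⟩
  have h2 := hC₂ X hX S T hSf (by rw [hT]; exact fun K hK => hK.1) (by
    rw [hT]
    rintro K ⟨hK, p, hp, hf, hN, hL, hsub⟩
    obtain ⟨E, hE, hEK, hfE, hNE, hLE⟩ := hSm K (sizeFlds_sub r₁ r₂ X hK) p hp ⟨hf, hN, hL⟩
    exact ⟨E, hE, hEK, hB p E K ⟨hN, hL, hsub⟩ ⟨hNE, hLE⟩ hEK⟩)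
  have hsub : {K | K ∈ FX r₁ r₂ X ∧ ∃ p ≤ P X, K ∈ YFails p} ⊆
      {K | K ∈ FX r₁ r₂ X ∧ ∃ p ≤ P X, K ∈ MinFails p} ∪ T := by
    rintro K ⟨hK, p, hp, hY⟩
    rcases fx_mem hK with h | ⟨hN, h⟩
    · right
      rw [hT]
      exact ⟨h, p, hp, hY⟩
    · left
      obtain ⟨hf, _, hL, _⟩ := hY
      refine ⟨hK, p, hp, hf, hN, hL, fun E hE h2r => ?_⟩
      rw [h E hE] at h2r
      omega
  have hfin1 : {K | K ∈ FX r₁ r₂ X ∧ ∃ p ≤ P X, K ∈ MinFails p}.Finite :=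
    (hfin X).subset fun K hK => hK.1
  have hfin2 : T.Finite := by
    rw [hT]
    refine (hfin X).subset ?_
    rintro K ⟨⟨hN, h3, h4, h5, h6⟩, _⟩
    exact ⟨hN, h3, h4, h5, Or.inl h6⟩
  have h3 := (Set.ncard_le_ncard hsub (hfin1.union hfin2)).trans (Set.ncard_union_le _ _)
  have h4 : X ^ (ε / 2) ≤ X ^ (((r₁ : ℝ) + 2 * r₂) / 2 + ε) :=
    Real.rpow_le_rpow_of_exponent_le hX (by linarith)
  have hp1 : (0 : ℝ) ≤ X ^ (ε / 2) := Real.rpow_nonneg hX0.le _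
  have hp2 : (0 : ℝ) ≤ X ^ (((r₁ : ℝ) + 2 * r₂) / 2 + ε / 2) := Real.rpow_nonneg hX0.le _
  have h5 : (S.ncard : ℝ) ≤ |C₁| * X ^ (ε / 2) :=
    hSc.trans (mul_le_mul_of_nonneg_right (le_abs_self _) hp1)
  have h6 : (T.ncard : ℝ) ≤ |C₂| * |C₁| * X ^ (((r₁ : ℝ) + 2 * r₂) / 2 + ε) := by
    calc (T.ncard : ℝ) ≤ C₂ * S.ncard * X ^ (((r₁ : ℝ) + 2 * r₂) / 2 + ε / 2) := h2
      _ ≤ |C₂| * (|C₁| * X ^ (ε / 2)) * X ^ (((r₁ : ℝ) + 2 * r₂) / 2 + ε / 2) := by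
          refine mul_le_mul_of_nonneg_right ?_ hp2
          exact mul_le_mul (le_abs_self _) h5 (by positivity) (abs_nonneg _)
      _ = |C₂| * |C₁| * (X ^ (ε / 2) * X ^ (((r₁ : ℝ) + 2 * r₂) / 2 + ε / 2)) := by ring
      _ = _ := by
          rw [← Real.rpow_add hX0]
          congr 2
          ring
  calc ({K | K ∈ FX r₁ r₂ X ∧ ∃ p ≤ P X, K ∈ YFails p}.ncard : ℝ)
      ≤ ({K | K ∈ FX r₁ r₂ X ∧ ∃ p ≤ P X, K ∈ MinFails p}.ncard : ℝ) + (T.ncard : ℝ) := by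
        exact_mod_cast h3
    _ ≤ |C₁| * X ^ (((r₁ : ℝ) + 2 * r₂) / 2 + ε)
        + |C₂| * |C₁| * X ^ (((r₁ : ℝ) + 2 * r₂) / 2 + ε) := by
        refine add_le_add (h1.trans ?_) h6
        exact (mul_le_mul_of_nonneg_right (le_abs_self _) hp1).trans
          (mul_le_mul_of_nonneg_left h4 (abs_nonneg _))
    _ = _ := by ring

/-- The lower bound for the family of both orders. -/
theorem yLow (hL : LowY) (r₁ r₂ : ℕ) (hr : 3 ≤ r₁ + r₂) (hfin : ∀ X, (FX r₁ r₂ X).Finite) :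
    ∀ ε : ℝ, 0 < ε → ∃ X₀ : ℝ, ∀ X : ℝ, X₀ ≤ X →
      X ^ (((r₁ : ℝ) + 2 * r₂ + 1) / 2 - ε) ≤ ((FX r₁ r₂ X).ncard : ℝ) := by
  intro ε hε
  obtain ⟨X₀, hX₀⟩ := hL r₁ r₂ hr ε hε
  refine ⟨X₀, fun X hX => (hX₀ X hX).trans ?_⟩
  have hsub : SizeFlds r₁ r₂ X ⊆ FX r₁ r₂ X := by
    rintro K ⟨hN, h3, h4, h5, h6⟩
    exact ⟨hN, h3, h4, h5, Or.inl h6⟩
  exact_mod_cast Set.ncard_le_ncard hsub (hfin X)

/-- In the listed degrees there is no condition on the subfields. -/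
theorem yAll (hD : DegStmt) (p : ℕ) (K : IntermediateField ℚ ℂ) (hF : K ∈ Fails p)
    (hd : Module.finrank ℚ K ≤ 8 ∨ (Module.finrank ℚ K).Prime ∨
      ∃ q : ℕ, q.Prime ∧ Module.finrank ℚ K = 2 * q) : K ∈ YFails p := by
  obtain ⟨hf, hN, hL⟩ := hF
  exact ⟨hf, hN, hL, fun E h3 h2 => absurd h2 (hD K E hd h3)⟩

end Pool.Agent.LRY.H74
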