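import Pool.Agent.Helper29_LRN.AssF

/-!
# Primitive fields: all violations are minimal
-/

set_option autoImplicit false

open NumberField Filter

namespace Pool.Agent.LRY.H74

open Pool.Agent.LRN.H29

/-- For a primitive field every failure is a minimal one. -/
theorem prim_min (p : ℕ) (K : IntermediateField ℚ ℂ) (hP : K ∈ Prim) (hF : K ∈ Fails p) :
    K ∈ MinFails p := by
  obtain ⟨hp, hN, hL⟩ := hF
  refine ⟨hp, hN, hL, fun E hE h2 => ?_⟩
  exfalso
  rcases hP E with rfl | rfl
  · have h1 := Pool.Agent.LRN.H74.rank_le (⊥ : IntermediateField ℚ K)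
    rw [IntermediateField.finrank_bot] at h1
    omega
  · exact hE rfl

end Pool.Agent.LRY.H74
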